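import Pool.Agent.H70.CG.FIN

/-!
# Weighted matchings in random bipartite graphs from doubly stochastic matrices:
the bound by the Karp-Sipser constant, and the conjectured inequality up to `3 / (5 n)`
-/

namespace Pool.Agent.Results.MP_3bdb72_co.KarpSipserBound

open Finset

/-- `A` is doubly stochastic. -/
def DoublyStochastic {n : ℕ} (A : Fin n → Fin n → ℝ) : Prop :=
  (∀ i j, 0 ≤ A i j) ∧ (∀ i, ∑ j, A i j = 1) ∧ (∀ j, ∑ i, A i j = 1)

/-- The pair `(A, W)` is admissible. -/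
def Admissible {n : ℕ} (A W : Fin n → Fin n → ℝ) : Prop :=
  DoublyStochastic A ∧ (∀ i j, 0 ≤ W i j) ∧ ∑ i, ∑ j, W i j * A i j = 1

/-- `M` is a matching: two edges with a common left or right vertex are equal. -/
def IsMatching {n : ℕ} (M : Finset (Fin n × Fin n)) : Prop :=
  ∀ e ∈ M, ∀ e' ∈ M, (e.1 = e'.1 ∨ e.2 = e'.2) → e = e'

/-- The maximum weight of a matching contained in `R`. -/
noncomputable def maxWeight {n : ℕ} (W : Fin n → Fin n → ℝ) (R : Finset (Fin n × Fin n)) : ℝ :=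
  sSup {s | ∃ M : Finset (Fin n × Fin n), M ⊆ R ∧ IsMatching M ∧ s = ∑ e ∈ M, W e.1 e.2}

/-- The expected maximum weight of a matching of the random graph `R(A)`. -/
noncomputable def Phi {n : ℕ} (A W : Fin n → Fin n → ℝ) : ℝ :=
  ∑ R : Finset (Fin n × Fin n),
    ((∏ e ∈ R, A e.1 e.2) * ∏ e ∈ Rᶜ, (1 - A e.1 e.2)) * maxWeight W R

/-- The matrix with all entries `1 / n`. -/
noncomputable def U (n : ℕ) : Fin n → Fin n → ℝ := fun _ _ => 1 / n

theorem maxWeight_eq {n : ℕ} (W : Fin n → Fin n → ℝ) (R : Finset (Fin n × Fin n)) :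
    maxWeight W R = H70.CG.nu W R := by
  obtain ⟨M, h1, h2, h3⟩ := H70.CG.exists_nu W R
  have hg : IsGreatest {s | ∃ M : Finset (Fin n × Fin n), M ⊆ R ∧ IsMatching M ∧
      s = ∑ e ∈ M, W e.1 e.2} (H70.CG.nu W R) := by
    refine ⟨⟨M, h1, h2, h3.symm⟩, ?_⟩
    rintro s ⟨M', h4, h5, rfl⟩
    exact H70.CG.nu_ge W (G := R) (M := M') h5 h4
  exact hg.csSup_eq

theorem Phi_eq {n : ℕ} (A W : Fin n → Fin n → ℝ) :
    Phi A W = H70.CG.ex (fun e : Fin n × Fin n => A e.1 e.2) (H70.CG.nu W) := by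
  unfold Phi H70.CG.ex H70.CG.wt
  exact Finset.sum_congr rfl fun R _ => by rw [maxWeight_eq]

theorem nu_U {n : ℕ} (R : Finset (Fin n × Fin n)) :
    H70.CG.nu (U n) R ≤ 1 / (n : ℝ) * H70.CG.nu H70.CG.one1 R := by
  refine H70.CG.LIM.nu_scale H70.CG.one1 (U n) (1 / n) (by positivity) (fun u v => ?_) R
  unfold U H70.CG.one1
  linarith

/-- With `Om * exp Om = 1` (this `Om` exists and is unique): for every `n ≥ 1` and every
admissible pair `(A, W)`, `Phi(A,W) ≥ 2 - 2 Om - Om ^ 2 + (1 / 41) ∑ w_ij a_ij ^ 2` and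
`Phi(A,W) ≥ Phi(U_n,U_n) - 3 / (5 n) + (1 / 41) ∑ w_ij a_ij ^ 2`. -/
theorem result : (∃ Om : ℝ, Om * Real.exp Om = 1 ∧ ∀ Om' : ℝ, Om' * Real.exp Om' = 1 → Om' = Om) ∧
    ∀ Om : ℝ, Om * Real.exp Om = 1 → ∀ (n : ℕ), 1 ≤ n → ∀ A W : Fin n → Fin n → ℝ,
      Admissible A W →
      (2 - 2 * Om - Om ^ 2) + (∑ i, ∑ j, W i j * A i j ^ 2) / 41 ≤ Phi A W ∧
      Phi (U n) (U n) ≤ Phi A W + 3 / (5 * n) - (∑ i, ∑ j, W i j * A i j ^ 2) / 41 := by
  refine ⟨?_, ?_⟩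
  · obtain ⟨Om, ⟨h1, _, _⟩, h2⟩ := H70.CG.NUMA.om
    exact ⟨Om, h1, h2⟩
  intro Om hOm n hn A W hA
  obtain ⟨hA1, hW, hAW⟩ := hA
  have hn0 : (0 : ℝ) < n := by exact_mod_cast hn
  have h1 := H70.CG.GREAL.gapd H70.CG.gint_all H70.CG.STR.str Om hOm (Fin n) (Fin n) A
    W hA1.1 (fun u => (hA1.2.1 u).le) (fun v => (hA1.2.2 v).le) hW
  have h2 := H70.CG.FIN.upp Om hOm n hn
  have h3 : ∑ i, ∑ j, ((2 - 2 * Om - Om ^ 2) * A i j + 1 / 41 * A i j ^ 2) * W i j =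
      (2 - 2 * Om - Om ^ 2) + (∑ i, ∑ j, W i j * A i j ^ 2) / 41 := by
    have e1 : (2 - 2 * Om - Om ^ 2) = (2 - 2 * Om - Om ^ 2) * ∑ i, ∑ j, W i j * A i j := by
      rw [hAW, mul_one]
    conv_rhs => rw [e1]
    rw [Finset.mul_sum, Finset.sum_div, ← Finset.sum_add_distrib]
    refine Finset.sum_congr rfl fun i _ => ?_
    rw [Finset.mul_sum, Finset.sum_div, ← Finset.sum_add_distrib]
    exact Finset.sum_congr rfl fun j _ => by ring
  rw [h3, ← Phi_eq] at h1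
  refine ⟨h1, ?_⟩
  have h4 : Phi (U n) (U n) ≤ (2 - 2 * Om - Om ^ 2) + 3 / (5 * n) := by
    rw [Phi_eq]
    have h5 : H70.CG.ex (fun e : Fin n × Fin n => U n e.1 e.2) (H70.CG.nu (U n)) ≤
        1 / (n : ℝ) * H70.CG.ex (fun _ : Fin n × Fin n => 1 / (n : ℝ)) (H70.CG.nu H70.CG.one1) := by
      rw [← H70.CG.ex_mul]
      refine H70.CG.ex_mono_f (fun e => ?_) (fun e => ?_) fun R => nu_U R
      · unfold U; positivity
      · unfold U
        rw [div_le_one hn0]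
        exact_mod_cast hn
    refine h5.trans ?_
    have h6 := mul_le_mul_of_nonneg_left h2 (by positivity : (0 : ℝ) ≤ 1 / n)
    refine h6.trans (le_of_eq ?_)
    field_simp
  linarith

end Pool.Agent.Results.MP_3bdb72_co.KarpSipserBound
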